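import Mathlib

/-!
# The second derived set of a subset of a `T₀`-space is closed

For a subset `A` of a topological space let `A^d` be the set of all `x` which lie in the closure
of `A \ {x}`.  In a `T₀`-space the set `(A^d)^d` is closed for every `A`.
-/

set_option autoImplicit false

namespace Pool.Agent.Results.MP_091ced_gt.SecondDerivedClosed

/-- The derived set `A^d = {x : x ∈ closure (A \ {x})}`. -/
def der {X : Type*} [TopologicalSpace X] (A : Set X) : Set X :=
  {x | x ∈ closure (A \ {x})}

/-- In every `T₀`-space the second derived set of every subset is closed. -/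
theorem result : ∀ (X : Type*) [TopologicalSpace X] [T0Space X] (A : Set X),
    IsClosed (der (der A)) := by
  intro X _ _ A
  rw [← isOpen_compl_iff, isOpen_iff_mem_nhds]
  intro x hx
  by_contra hcon
  -- every open set around `x` meets `der (der A)`
  have hmeet : ∀ U : Set X, IsOpen U → x ∈ U → ∃ y ∈ U, y ∈ der (der A) := by
    intro U hU hxU
    by_contra h
    push Not at h
    exact hcon (Filter.mem_of_superset (hU.mem_nhds hxU) (fun y hy => h y hy))
  have hx' : x ∉ closure (der A \ {x}) := hx
  rw [mem_closure_iff] at hx'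
  push Not at hx'
  obtain ⟨U, hU, hxU, hUB⟩ := hx'
  obtain ⟨y, hyU, hy⟩ := hmeet U hU hxU
  have hyx : y ≠ x := by
    rintro rfl
    exact hx hy
  have hy2 := mem_closure_iff.1 hy
  -- `x` lies in every open set around `y`
  have hxW : ∀ W : Set X, IsOpen W → y ∈ W → x ∈ W ∧ x ∈ der A := by
    intro W hW hyW
    obtain ⟨z, hz, hzB, hzy⟩ := hy2 (W ∩ U) (hW.inter hU) ⟨hyW, hyU⟩
    have : z = x := by
      by_contra hzx
      have : z ∈ U ∩ (der A \ {x}) := ⟨hz.2, hzB, hzx⟩
      rw [hUB] at this
      exact this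
    subst this
    exact ⟨hz.1, hzB⟩
  have hxA : x ∈ der A := (hxW Set.univ isOpen_univ trivial).2
  have hyB : y ∉ der A := by
    intro h
    have : y ∈ U ∩ (der A \ {x}) := ⟨hyU, h, hyx⟩
    rw [hUB] at this
    exact this
  have hyB' : y ∉ closure (A \ {y}) := hyB
  rw [mem_closure_iff] at hyB'
  push Not at hyB'
  obtain ⟨V, hV, hyV, hVA⟩ := hyB'
  have hxV : x ∈ V := (hxW V hV hyV).1
  have hxA' := mem_closure_iff.1 hxA
  -- `y` lies in every open set around `x`
  have hyW : ∀ W : Set X, IsOpen W → x ∈ W → y ∈ W := by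
    intro W hW hxW'
    obtain ⟨z, hz, hzA, _⟩ := hxA' (W ∩ V) (hW.inter hV) ⟨hxW', hxV⟩
    have : z = y := by
      by_contra hzy
      have : z ∈ V ∩ (A \ {y}) := ⟨hz.2, hzA, hzy⟩
      rw [hVA] at this
      exact this
    subst this
    exact hz.1
  apply hyx
  apply (inseparable_iff_forall_isOpen.2 _).eq
  intro W hW
  exact ⟨fun h => (hxW W hW h).1, fun h => hyW W hW h⟩

end Pool.Agent.Results.MP_091ced_gt.SecondDerivedClosed
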